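import Mathlib
import Pool.Agent.Q183.Khin.Rand

set_option autoImplicit false

/-!
# Random products of `2` and `3` are almost surely not Khintchin sequences

Let `ω_0, ω_1, …` be independent, equal to `2` with probability `p` and to `3` with probability `1 - p`, `0 < p < 1`.
Almost surely the product sequence is not an `L^r`-Khintchin sequence for any exponent `r ∈ [0, ∞]`, in particular it
is not a Khintchin sequence.
-/

namespace Pool.Agent.Results.MP_47485c_an.AlmostSurelyBad

open MeasureTheory ProbabilityTheory Filter Topology Pool.Agent.Q183.Khin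
open scoped ENNReal

/-- For independent letters `w i` (`2` with probability `p`, `3` with probability `1 - p`), almost surely, for every
exponent `r ∈ [0, ∞]`, some `f ∈ L^r(𝕋)` violates `N⁻¹ ∑_{n ≤ N} f(w_{n-1} ⋯ w_0 x) → ∫ f` on a set of positive
measure. -/
theorem result {Ω : Type*} [MeasurableSpace Ω] (P : Measure Ω) [IsProbabilityMeasure P] (w : ℕ → Ω → ℕ)
    (hw : ∀ i, Measurable (w i)) (hind : iIndepFun w P) (p : ℝ) (hp0 : 0 < p) (hp1 : p < 1)
    (h2 : ∀ i, P {ω | w i ω = 2} = ENNReal.ofReal p) (h3 : ∀ i, P {ω | w i ω = 3} = ENNReal.ofReal (1 - p)) :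
    ∀ᵐ ω ∂P, ∀ r : ℝ≥0∞, ¬ ∀ f : UnitAddCircle → ℂ, MemLp f r volume →
      ∀ᵐ x : UnitAddCircle, Tendsto (fun N : ℕ => (1 / (N : ℂ)) * ∑ n ∈ Finset.Icc 1 N,
        f ((∏ i ∈ Finset.range n, w i ω) • x)) atTop (𝓝 (∫ y, f y)) := by
  have hg : Measurable (fun m : ℕ => decide (m = 2)) := measurable_from_nat
  have hb : ∀ i, Measurable (fun ω => decide (w i ω = 2)) := fun i => hg.comp (hw i)
  have hind' : iIndepFun (fun i ω => decide (w i ω = 2)) P :=
    hind.comp (fun _ m => decide (m = 2)) fun _ => hg
  have hlaw : ∀ i, P {ω | decide (w i ω = 2) = true} = ENNReal.ofReal p := by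
    intro i
    simp only [decide_eq_true_eq]
    exact h2 i
  have hrich := ae_rich hp0 hp1 hb hind' hlaw
  have hval : ∀ᵐ ω ∂P, ∀ i, w i ω = 2 ∨ w i ω = 3 := by
    rw [ae_all_iff]
    intro i
    have m2 : MeasurableSet {ω | w i ω = 2} := hw i (measurableSet_singleton 2)
    have m3 : MeasurableSet {ω | w i ω = 3} := hw i (measurableSet_singleton 3)
    have hu : P ({ω | w i ω = 2} ∪ {ω | w i ω = 3}) = 1 := by
      rw [measure_union _ m3, h2, h3, ← ENNReal.ofReal_add hp0.le (by linarith)]
      · simp
      · rw [Set.disjoint_left]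
        intro ω h1 h1'
        simp only [Set.mem_ofPred_eq] at h1 h1'
        omega
    have := (prob_compl_eq_zero_iff (m2.union m3)).mpr hu
    rw [ae_iff]
    convert this using 2
    ext ω
    simp
  filter_upwards [hrich, hval] with ω hr hv r hK
  refine Rich.not_khintchin hr r ?_
  have e : ∀ n, lamB (fun i => decide (w i ω = 2)) n = ∏ i ∈ Finset.range n, w i ω := by
    intro n
    refine Finset.prod_congr rfl fun i _ => ?_
    rcases hv i with h | h <;> simp [h]
  intro f hf
  simp only [e]
  exact hK f hf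

end Pool.Agent.Results.MP_47485c_an.AlmostSurelyBad
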